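import Pool.Agent.H58.NSP.AngT

/-!
# Axisymmetric Navier-Stokes flows with swirl: only the angular inflow has to be subcritical

The known one-sided criteria exclude a blow-up if `ρ u_ρ ≥ -(2 - μ)` (or a borderline form of this)
near the axis. Here, near a point `c(t)` of the axis which moves in an arbitrary differentiable way,
only `ρ u_ρ ≥ -C` is assumed, with an arbitrary constant `C`, and the subcritical bound is needed
only for the inflow in the angular variable `ρ / |x₂ - c|`: with `w = x₂ - c(t)`,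

`ρ u_ρ - ρ² (u₂ - c') / w ≥ -(2 - μ) - C ρ / |w|`.

(The left-hand side is `ρ²` times the relative rate of change of `ρ / |w|` along the particle paths.)
The term `C ρ / |w|` makes this a condition of type I (with an arbitrary constant) outside thin cones
around the axis with vertex `c(t)`.

`V = Fin 3 → ℝ` with the maximum norm. See the claim file for the definitions.
-/

open MeasureTheory Set Metric

namespace Pool.Agent.Results.MP_09540e_an.AngularInflow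

open H459R3.NS W221.NS Pool.Agent.TH305.AX Pool.Agent.H58.NSP

/-- `f` is continuous in space, bounded and square integrable, uniformly for `t ∈ S`. -/
def Ub (S : Set ℝ) (f : ℝ → V → ℝ) : Prop :=
  ∃ C : ℝ, ∀ t ∈ S, Continuous (f t) ∧ (∀ x, |f t x| ≤ C) ∧ Integrable (fun x => f t x ^ 2) ∧
    ∫ x, f t x ^ 2 ≤ C

/-- The same for the spatial derivatives of order at most `n`. -/
def Hn : ℕ → Set ℝ → (ℝ → V → ℝ) → Prop
  | 0, S, f => Ub S f
  | n + 1, S, f => Ub S f ∧ ∀ j, Hn n S fun t => pd j (f t)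

lemma Ub.hb {S : Set ℝ} {f : ℝ → V → ℝ} (h : Ub S f) :
    Pool.Agent.X96.AR.Bd S f ∧ Pool.Agent.X96.AR.B2 S f := by
  obtain ⟨C, hC⟩ := h
  exact ⟨⟨max C 0, le_max_right _ _, fun t ht => ⟨(hC t ht).1, fun x =>
      ((hC t ht).2.1 x).trans (le_max_left _ _)⟩⟩,
    ⟨max C 0, le_max_right _ _, fun t ht => ⟨⟨(hC t ht).1, (hC t ht).2.2.1⟩,
      (hC t ht).2.2.2.trans (le_max_left _ _)⟩⟩⟩

lemma Hn.hb : ∀ {n : ℕ} {S : Set ℝ} {f : ℝ → V → ℝ}, Hn n S f → Pool.Agent.X96.AR.HB n S f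
  | 0, _, _, h => Ub.hb h
  | _ + 1, _, _, h => ⟨Ub.hb h.1, fun j => Hn.hb (h.2 j)⟩

/-- Let `(u, p)` be a smooth axisymmetric solution of the Navier-Stokes equations with viscosity `1`
on `[0, T) × ℝ³` such that all spatial derivatives of `u`, and those of `p` of order at most one, are
bounded and square integrable, uniformly on compact subintervals of `(0, T)`; `Γ = circ (u t)` is
the circulation. Let `0 < T₁ < T`, let `c` be continuous on `[T₁, T)` and differentiable on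
`(T₁, T)`, let `w = x₂ - c(t)` and let `r` be the distance of `x` to the point of height `c(t)` of
the axis. Let `μ, C, r₀, κ, R > 0`, and let `β, b ≥ 0` be continuous on `[T₁, T)` with `∫ β² ≤ B`,
`∫ b ≤ B`. Suppose that for `T₁ < t < T`, at all points with `0 < ρ < R` at which
`|Γ| > N ρ ^ (2 κ)` and which are records of `|Γ|` (see `Ra`),
* `w² ρ u_ρ - ρ² w (u₂ - c') ≥ -(2 - μ) w² - C ρ |w| - (β(t) ρ + b(t) ρ²) r²`,
* `ρ u_ρ ≥ -C - β(t) ρ - b(t) ρ²` if `r < r₀`,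
* `ρ u_ρ ≥ -2 + μ - β(t) ρ - b(t) ρ²` if `r ≥ r₀`.
Then `u` is bounded on `[0, T) × ℝ³`. -/
theorem result : ∀ (T : ℝ) (u : ℝ → V → V) (p : ℝ → V → ℝ), BSol 1 T u p →
    (∀ a b : ℝ, 0 < a → b < T → (∀ i n, Hn n (Icc a b) fun t x => u t x i) ∧
      Hn 1 (Icc a b) p) →
    ∀ (c β b : ℝ → ℝ) (T₁ μ C r₀ κ N R B : ℝ), 0 < T₁ → T₁ < T → 0 < μ → 0 < C → 0 < r₀ → 0 < κ →
    0 < R → ContinuousOn c (Ico T₁ T) → (∀ t ∈ Ioo T₁ T, DifferentiableAt ℝ c t) →
    ContinuousOn β (Ico T₁ T) → ContinuousOn b (Ico T₁ T) → (∀ t ∈ Ico T₁ T, 0 ≤ β t) →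
    (∀ t ∈ Ico T₁ T, 0 ≤ b t) → (∀ t ∈ Ico T₁ T, ∫ s in T₁..t, β s ^ 2 ≤ B) →
    (∀ t ∈ Ico T₁ T, ∫ s in T₁..t, b s ≤ B) →
    (∀ t ∈ Ioo T₁ T, ∀ x, 0 < sg x → sg x < R ^ 2 → Ra κ N T₁ c u t x →
      -(2 - μ) * (x 2 - c t) ^ 2 - C * (√(sg x) * |x 2 - c t|)
          - (β t * √(sg x) + b t * sg x) * dsq (c t) x
        ≤ (x 2 - c t) ^ 2 * (x 0 * u t x 0 + x 1 * u t x 1)
          - sg x * ((x 2 - c t) * (u t x 2 - deriv c t)) ∧
      (r₀ ^ 2 ≤ dsq (c t) x →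
        -2 + μ - β t * √(sg x) - b t * sg x ≤ x 0 * u t x 0 + x 1 * u t x 1) ∧
      (dsq (c t) x < r₀ ^ 2 →
        -C - β t * √(sg x) - b t * sg x ≤ x 0 * u t x 0 + x 1 * u t x 1)) →
    ∃ U : ℝ, ∀ t ∈ Ico 0 T, ∀ x, ‖u t x‖ ≤ U := by
  intro T u p h hn c β b T₁ μ C r₀ κ N R B hT₁ hT₁T hμ hC hr₀ hκ hR hc hcd hβ hb hβ0 hb0 hB1 hB2
    hcond
  have hRP : Pool.Agent.X96.AT.RP T u p :=
    ⟨⟨h, fun a b ha hb i n => ((hn a b ha hb).1 i n).hb⟩, fun a b ha hb => (hn a b ha hb).2.hb⟩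
  obtain ⟨a₀, ha₀⟩ : ∃ a₀ : ℝ, a₀ = T₁ / 2 := ⟨_, rfl⟩
  have ha0 : 0 < a₀ := by linarith
  have haT : a₀ < T := by linarith
  obtain ⟨E, hE, hrs, en, dis, -⟩ := Pool.Agent.X96.AT.frame hRP ha0 haT
  obtain ⟨M, -, hM⟩ := Pool.Agent.X96.AT.circ_cyl hrs hE (t₀ := T₁ - a₀) (by linarith)
    (by linarith) hR en dis
  have hts := Pool.Agent.X96.AT.RS.ts hrs (t₀ := T₁ - a₀) (by linarith)
  have e1 : T - a₀ - (T₁ - a₀) = T - T₁ := by ring
  have e2 : (fun t => u (a₀ + (T₁ - a₀ + t))) = fun t => u (T₁ + t) := by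
    funext t
    congr 1
    ring
  have e3 : (fun t => p (a₀ + (T₁ - a₀ + t))) = fun t => p (T₁ + t) := by
    funext t
    congr 1
    ring
  rw [e1] at hts
  have hts' : Pool.Agent.X96.AT.TS 1 (T - T₁) (fun t => u (T₁ + t)) (fun t => p (T₁ + t)) := by
    rw [← e2, ← e3]
    exact hts
  have hmap : ∀ t, t ∈ Ico 0 (T - T₁) → T₁ + t ∈ Ico T₁ T := fun t ht =>
    ⟨by linarith [ht.1], by linarith [ht.2]⟩
  have hmap' : ∀ t, t ∈ Ioo 0 (T - T₁) → T₁ + t ∈ Ioo T₁ T := fun t ht =>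
    ⟨by linarith [ht.1], by linarith [ht.2]⟩
  have hRa : ∀ t x, Ra κ N 0 (fun t => c (T₁ + t)) (fun t => u (T₁ + t)) t x →
      Ra κ N T₁ c u (T₁ + t) x := fun t x hx =>
    ⟨hx.1, fun t' ht' y hy hy2 => by
      have e : T₁ + (t' - T₁) = t' := by ring
      have h2 := hx.2.1 (t' - T₁) ⟨by linarith [ht'.1], by linarith [ht'.2]⟩ y hy
        (by simp only [e]; exact hy2)
      simpa only [e] using h2, hx.2.2.1, hx.2.2.2⟩
  have hder : ∀ t, deriv (fun t => c (T₁ + t)) t = deriv c (T₁ + t) := fun t =>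
    deriv_comp_const_add c T₁ t
  obtain ⟨A, γ, hA0, hγ, hA⟩ := angT hts' (by linarith) (c := fun t => c (T₁ + t))
    (hc.comp (f := fun t => T₁ + t) (by fun_prop) fun t ht => hmap t ht)
    (fun t ht => (hcd (T₁ + t) (hmap' t ht)).comp t (differentiableAt_id.const_add T₁))
    (R := R) (μ := μ) (C := C) (r₀ := r₀) (κ := κ) (N := N) (M := M) (D := B) hR hμ hC hr₀ hκ
    (β := fun t => β (T₁ + t)) (b := fun t => b (T₁ + t))
    (hβ.comp (f := fun t => T₁ + t) (by fun_prop) fun t ht => hmap t ht)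
    (hb.comp (f := fun t => T₁ + t) (by fun_prop) fun t ht => hmap t ht)
    (fun t ht => hβ0 (T₁ + t) (hmap t ht)) (fun t ht => hb0 (T₁ + t) (hmap t ht))
    (fun t ht => by
      rw [intervalIntegral.integral_comp_add_left (fun s => β s ^ 2) T₁, add_zero]
      exact hB1 (T₁ + t) (hmap t ht))
    (fun t ht => by
      rw [intervalIntegral.integral_comp_add_left (fun s => b s) T₁, add_zero]
      exact hB2 (T₁ + t) (hmap t ht))
    (fun t ht x hx => by
      have h1 := hM (T₁ - a₀ + t) ⟨by linarith [ht.1], by linarith [ht.2]⟩ x hx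
      have e : a₀ + (T₁ - a₀ + t) = T₁ + t := by ring
      rwa [e] at h1)
    (fun t ht x hx hxR hx3 => by
      have h1 := (hcond (T₁ + t) (hmap' t ht) x hx hxR (hRa t x hx3)).1
      rw [hder]
      exact h1)
    (fun t ht x hx hxR hx3 => (hcond (T₁ + t) (hmap' t ht) x hx hxR (hRa t x hx3)).2.1)
    (fun t ht x hx hxR hx3 => (hcond (T₁ + t) (hmap' t ht) x hx hxR (hRa t x hx3)).2.2)
  refine Pool.Agent.X96.AT.regF hRP (T₁ := T₁) (a := 4) (α := 3)
    (N := A * ((R + 1) ^ (2 * γ) / (2 * γ / 3) ^ (3 : ℝ))) (L := R + 1) (R := R)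
    (B := 0) (β := fun _ => 0) hT₁.le hT₁T (by norm_num) (by norm_num) (by positivity) hR
    (by linarith) continuousOn_const (fun _ _ => le_rfl) (fun s t _ _ _ => by simp)
    (fun t ht x hx hxR hlt _ => ?_)
  have h1 := hA (t - T₁) ⟨by linarith [ht.1], by linarith [ht.2]⟩ x hx hxR.le
  have e : T₁ + (t - T₁) = t := by ring
  simp only [e] at h1
  have h2 := mul_le_mul_of_nonneg_left
    (pow_log hγ hR (show R < R + 1 by linarith) hx hxR.le) hA0
  exact absurd hlt (not_lt.2 (h1.trans (h2.trans (le_of_eq (by ring)))))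

end Pool.Agent.Results.MP_09540e_an.AngularInflow
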