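import Pool.Agent.H58.NSP.Mono

/-!
# Axisymmetric Navier-Stokes flows with swirl: one-sided inflow of type I towards a moving point of
the axis

All the conditions known for the circulation at the axis restrict the radial velocity near a whole
piece of the axis, or all the components of the velocity. Here only the component of the velocity
towards ONE point of the axis is restricted, on one side, and this point may move along the axis in
an arbitrary differentiable way. With the distance `R` to the point `a(t)`, the inflow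
`-(x - a) · (u - a') / R` towards the point is allowed to be as large as
`(1 - μ) ν / R + C / √(T - t) + B(t) R`, with an arbitrary constant `C` and an integrable `B`, and
it is restricted only at the records of the circulation (with respect to the moving balls). Then the
circulation is Hoelder continuous at the moving point, uniformly up to the (possible blow-up) time
`T`. The critical value is `ν` (and not `2 ν` as for the inflow towards the axis).

`V = Fin 3 → ℝ` with the maximum norm. See the claim file for the definitions.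
-/

open MeasureTheory Set Metric

namespace Pool.Agent.Results.MP_09540e_an.InflowTowardsAPoint

open H459R3.NS W221.NS Pool.Agent.TH305.AX Pool.Agent.H58.NSP

/-- Let `Γ = circ (u t)` be the circulation and `R² = dsq (a t) x` the square of the Euclidean
distance of `x` to the point of height `a(t)` of the axis.

For all `ν, μ, β > 0` and `C ≥ 0` there is an exponent `γ > 0` with the following property. Let
`(u, p)` be a smooth axisymmetric solution of the Navier-Stokes equations on `[0, T) × ℝ³`, `u`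
tending to zero at infinity, uniformly on `[0, T'] × ℝ³` for each `T' < T`, and let `|Γ| ≤ M` at
time `0`. Let `a` be continuous on `[0, T)` and differentiable on `(0, T)`, let `S > 0`, let
`B ≥ 0` be continuous on `[0, T)` with `∫_0^t B ≤ b` for `t < T`, and suppose that
`x₀ u₀ + x₁ u₁ + (x₂ - a) (u₂ - a') ≥ -(1 - μ) ν - C R / √(T - t) - B(t) R ^ 2`
at all points off the axis with `R ^ 2 < S` at which `|Γ| > K R ^ (2 β)` and which are records:
`|Γ(t', y)| ≤ |Γ(t, x)|` for all `t' ≤ t` and all `y` whose distance to the point `a(t')` of the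
axis is at most `R`. Then there is a number `A` with `|Γ(t, x)| ≤ A (R ^ 2) ^ γ` for all
`t ∈ [0, T)` and all `x` with `R ^ 2 ≤ S`. -/
theorem result (ν μ β C : ℝ) (hν : 0 < ν) (hμ : 0 < μ) (hβ : 0 < β) (hC : 0 ≤ C) :
    ∃ γ : ℝ, 0 < γ ∧
      ∀ (T : ℝ) (u : ℝ → V → V) (p : ℝ → V → ℝ), AxSol ν T u p →
      ∀ (M S K b : ℝ) (a B : ℝ → ℝ), 0 < S → (∀ x, |circ (u 0) x| ≤ M) →
        ContinuousOn a (Ico 0 T) → (∀ t ∈ Ioo 0 T, DifferentiableAt ℝ a t) →
        ContinuousOn B (Ico 0 T) → (∀ t ∈ Ico 0 T, 0 ≤ B t) →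
        (∀ t ∈ Ico 0 T, ∫ r in (0 : ℝ)..t, B r ≤ b) →
        (∀ t ∈ Ioo 0 T, ∀ x, 0 < sg x → dsq (a t) x < S →
          K * dsq (a t) x ^ β < |circ (u t) x| →
          (∀ t' ∈ Icc 0 t, ∀ y, dsq (a t') y ≤ dsq (a t) x →
            |circ (u t') y| ≤ |circ (u t) x|) →
          -((1 - μ) * ν) - C * √(dsq (a t) x) / √(T - t) - B t * dsq (a t) x
            ≤ x 0 * u t x 0 + x 1 * u t x 1 + (x 2 - a t) * (u t x 2 - deriv a t)) →
        ∃ A : ℝ, ∀ t ∈ Ico 0 T, ∀ x, dsq (a t) x ≤ S →
          |circ (u t) x| ≤ A * dsq (a t) x ^ γ := by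
  obtain ⟨α, hαe⟩ : ∃ α : ℝ, α = min (μ / 2) (min β (1 / 4)) := ⟨_, rfl⟩
  have hα : 0 < α := by rw [hαe]; positivity
  have hαμ : α ≤ μ / 2 := by rw [hαe]; exact min_le_left _ _
  have hαβ : α ≤ β := by rw [hαe]; exact (min_le_right _ _).trans (min_le_left _ _)
  have hα2 : α < 1 / 2 := by
    have : α ≤ 1 / 4 := by rw [hαe]; exact (min_le_right _ _).trans (min_le_right _ _)
    linarith
  obtain ⟨Λ, γ, y₁, X₁, hpar⟩ := par_exists hν hC hα hα2
  have hγ := hpar.g_pos
  have hL := hpar.L_pos
  refine ⟨γ / 2, by positivity, ?_⟩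
  intro T u p h M S K b a B hS hM hac had hB hB0 hBi hcond
  rcases le_or_gt T 0 with hT | hT
  · exact ⟨0, fun t ht => absurd (ht.1.trans_lt ht.2) (not_lt.2 hT)⟩
  have hM0 : 0 ≤ M := (abs_nonneg _).trans (hM 0)
  obtain ⟨m, hm, hlat⟩ := bar_lat hpar (T := T) hT hS
  obtain ⟨m', hm', hlow⟩ := bar_low2 hpar (T := T) hT hS
  obtain ⟨k, hk, hini⟩ := bar_ini hpar (T := T) hT hS
  obtain ⟨U, hU0, hU⟩ := u_bdd h hT
  have hmax := circ_max hν h hM
  obtain ⟨A, hAe⟩ : ∃ A : ℝ, A = M / m + (2 * U / k + |K| * S ^ (β - α) / m') := ⟨_, rfl⟩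
  have hS' : 0 ≤ S ^ (β - α) := Real.rpow_nonneg hS.le _
  have hA1 : M / m ≤ A := by
    have : 0 ≤ 2 * U / k + |K| * S ^ (β - α) / m' := by positivity
    rw [hAe]; linarith
  have hA2 : 2 * U / k ≤ A := by
    have h1 : 0 ≤ M / m := by positivity
    have h2 : 0 ≤ |K| * S ^ (β - α) / m' := by positivity
    rw [hAe]; linarith
  have hA3 : |K| * S ^ (β - α) / m' ≤ A := by
    have h1 : 0 ≤ M / m := by positivity
    have h2 : 0 ≤ 2 * U / k := by positivity
    rw [hAe]; linarith
  have hA0 : 0 ≤ A := le_trans (by positivity) hA1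
  have hT0 : (0 : ℝ) ∈ Ico 0 T := ⟨le_rfl, hT⟩
  have key := cmpS hν h hS (A := A) (Φ := Bar T C α Λ γ y₁ X₁) hac had
    (fun t ht σ hσ => bar_pos hpar ht.2 hσ.1) (bar_cont hpar) (bar_axis hpar) hB hB0
    (fun t ht x _ => by
      have h1 := hmax t ht x
      have h2 := hlat t ht
      have h3 : M ≤ A * m := by rwa [div_le_iff₀ hm] at hA1
      have h4 : A * m ≤ A * Bar T C α Λ γ y₁ X₁ t S := mul_le_mul_of_nonneg_left h2 hA0
      linarith)
    (fun x hx hxS => by
      have h1 := hini (dsq (a 0) x) ⟨hx, hxS⟩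
      have h2 : |circ (u 0) x| ≤ 2 * U * √(dsq (a 0) x) := by
        have h3 := circ_le (u 0) x
        have h4 := hU 0 ⟨le_rfl, le_rfl⟩ x
        have h5 := Real.sqrt_le_sqrt (sg_le_dsq (a 0) x)
        calc |circ (u 0) x| ≤ 2 * √(sg x) * ‖u 0 x‖ := h3
          _ ≤ 2 * √(dsq (a 0) x) * U := by gcongr
          _ = _ := by ring
      have h3 : 2 * U ≤ A * k := by rwa [div_le_iff₀ hk] at hA2
      have hsq := Real.sqrt_nonneg (dsq (a 0) x)
      calc |circ (u 0) x| ≤ 2 * U * √(dsq (a 0) x) := h2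
        _ ≤ A * k * √(dsq (a 0) x) := mul_le_mul_of_nonneg_right h3 hsq
        _ = A * (k * √(dsq (a 0) x)) := by ring
        _ ≤ _ := mul_le_mul_of_nonneg_left h1 hA0)
    (fun t ht x hsx hxS hAx hrec => by
      have htI : t ∈ Ico 0 T := ⟨ht.1.le, ht.2⟩
      have hx : 0 < dsq (a t) x := hsx.trans_le (sg_le_dsq _ _)
      have h1 := hlow t htI (dsq (a t) x) ⟨hx, hxS.le⟩
      have h2 : K * dsq (a t) x ^ β < |circ (u t) x| := by
        refine lt_of_le_of_lt ?_ hAx
        have h3 : dsq (a t) x ^ β ≤ S ^ (β - α) * dsq (a t) x ^ α := by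
          have h4 : dsq (a t) x ^ β = dsq (a t) x ^ (β - α) * dsq (a t) x ^ α := by
            rw [← Real.rpow_add hx]
            congr 1
            ring
          rw [h4]
          have h5 : dsq (a t) x ^ (β - α) ≤ S ^ (β - α) :=
            Real.rpow_le_rpow hx.le hxS.le (by linarith)
          exact mul_le_mul_of_nonneg_right h5 (Real.rpow_nonneg hx.le _)
        have h4 : |K| * S ^ (β - α) ≤ A * m' := by rwa [div_le_iff₀ hm'] at hA3
        have h6 : 0 ≤ dsq (a t) x ^ α := Real.rpow_nonneg hx.le _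
        calc K * dsq (a t) x ^ β ≤ |K| * dsq (a t) x ^ β :=
              mul_le_mul_of_nonneg_right (le_abs_self K) (Real.rpow_nonneg hx.le _)
          _ ≤ |K| * (S ^ (β - α) * dsq (a t) x ^ α) :=
              mul_le_mul_of_nonneg_left h3 (abs_nonneg K)
          _ = |K| * S ^ (β - α) * dsq (a t) x ^ α := by ring
          _ ≤ A * m' * dsq (a t) x ^ α := mul_le_mul_of_nonneg_right h4 h6
          _ = A * (m' * dsq (a t) x ^ α) := by ring
          _ ≤ _ := mul_le_mul_of_nonneg_left h1 hA0
      have h3 : ∀ t' ∈ Icc 0 t, ∀ y, dsq (a t') y ≤ dsq (a t) x →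
          |circ (u t') y| ≤ |circ (u t) x| := by
        intro t' ht' y hy
        rcases eq_or_lt_of_le (dsq_nonneg (a t') y) with hy0 | hy0
        · have h4 : sg y = 0 := le_antisymm ((sg_le_dsq (a t') y).trans hy0.ge) (sg_nonneg y)
          have h5 : y 0 = 0 ∧ y 1 = 0 := by
            unfold sg at h4
            constructor <;> nlinarith [sq_nonneg (y 0), sq_nonneg (y 1)]
          have h6 : circ (u t') y = 0 := by
            unfold circ
            rw [h5.1, h5.2]
            ring
          rw [h6, abs_zero]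
          exact abs_nonneg _
        · have h4 := hrec t' ht' y hy0 (hy.trans hxS.le)
          have h5 := bar_mono hpar ht.2 ht'.2 hy0 hy
          have h6 := mul_le_mul_of_nonneg_left h5 (abs_nonneg (circ (u t) x))
          exact le_of_mul_le_mul_right (h4.trans h6) (bar_pos hpar ht.2 hx)
      have h4 := hcond t ht x hsx hxS h2 h3
      have hw : -((2 - 2 * α) * ν) - C * √(dsq (a t) x) / √(T - t) - B t * dsq (a t) x
          ≤ x 0 * u t x 0 + x 1 * u t x 1 + (x 2 - a t) * (u t x 2 - deriv a t) - ν := by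
        have h5 : -((2 - 2 * α) * ν) ≤ -((1 - μ) * ν) - ν := by nlinarith
        linarith
      rcases le_or_gt (√(dsq (a t) x / (T - t))) y₁ with hy1 | hy1
      · exact inner_maj hpar ht.2 hx hy1 (hB0 t htI) hw
      · exact outer_maj hpar ht.2 hx hy1 (hB0 t htI) hw)
  refine ⟨A * Real.exp b * (Λ + 1), fun t ht x hxS => ?_⟩
  rcases eq_or_lt_of_le (dsq_nonneg (a t) x) with hx | hx
  · have h4 : sg x = 0 := le_antisymm ((sg_le_dsq (a t) x).trans hx.ge) (sg_nonneg x)
    have h0 : x 0 = 0 ∧ x 1 = 0 := by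
      unfold sg at h4
      constructor <;> nlinarith [sq_nonneg (x 0), sq_nonneg (x 1)]
    have h1 : circ (u t) x = 0 := by
      unfold circ
      rw [h0.1, h0.2]
      ring
    rw [h1, abs_zero]
    have := Real.rpow_nonneg (dsq_nonneg (a t) x) (γ / 2)
    positivity
  · have h1 := key t ht x hx hxS
    have h2 := bar_up hpar ht.2 hx
    have h3 := Real.exp_le_exp.2 (hBi t ht)
    have hb0 : 0 ≤ Bar T C α Λ γ y₁ X₁ t (dsq (a t) x) := (bar_pos hpar ht.2 hx).le
    calc |circ (u t) x|
        ≤ A * Real.exp (∫ r in (0 : ℝ)..t, B r) * Bar T C α Λ γ y₁ X₁ t (dsq (a t) x) := h1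
      _ ≤ A * Real.exp b * Bar T C α Λ γ y₁ X₁ t (dsq (a t) x) := by gcongr
      _ ≤ A * Real.exp b * ((Λ + 1) * dsq (a t) x ^ (γ / 2)) := by gcongr
      _ = _ := by ring

end Pool.Agent.Results.MP_09540e_an.InflowTowardsAPoint
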