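import Pool.Agent.H58.NSP.Cyl

/-!
# Axisymmetric Navier-Stokes flows with swirl: one-sided bounds of an oblique velocity

The known one-sided criteria bound the inflow `-ρ u_ρ` towards the axis by (at most) `2` near the
axis. Here `ρ u_ρ` is replaced by the combination

`ρ u_ρ + ∑ l_i q_i (ρ² / R_i²) (1 + (x - c_i) · (u - c_i'))`, `q_i = r_i² / (r_i² + R_i²)`,

of the inflow towards the axis and of the inflow towards finitely many points `c_i(t)` of the axis,
which may move in an arbitrary differentiable way (`R_i` is the distance to the point `c_i(t)`; the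
coefficients `l_i` may be large, and also negative as long as their negative parts have a sum less
than one). A lower bound `-2 + a / log (L / ρ) - β(t) ρ - b(t) ρ²` of this combination, only near the
axis and only at certain records of the circulation, excludes a blow-up. So near the points `c_i`
the inflow towards the axis may be as large as `2 + l_i ρ² / R_i²`, for any `l_i`, where there is
no inflow towards the point `c_i`.

`V = Fin 3 → ℝ` with the maximum norm. See the claim file for the definitions.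
-/

open MeasureTheory Set Metric

namespace Pool.Agent.Results.MP_09540e_an.ObliqueInflow

open H459R3.NS W221.NS Pool.Agent.TH305.AX Pool.Agent.H58.NSP

/-- `f` is continuous in space, bounded and square integrable, uniformly for `t ∈ S`. -/
def Ub (S : Set ℝ) (f : ℝ → V → ℝ) : Prop :=
  ∃ C : ℝ, ∀ t ∈ S, Continuous (f t) ∧ (∀ x, |f t x| ≤ C) ∧ Integrable (fun x => f t x ^ 2) ∧
    ∫ x, f t x ^ 2 ≤ C

/-- The same for the spatial derivatives of order at most `n`. -/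
def Hn : ℕ → Set ℝ → (ℝ → V → ℝ) → Prop
  | 0, S, f => Ub S f
  | n + 1, S, f => Ub S f ∧ ∀ j, Hn n S fun t => pd j (f t)

lemma Ub.hb {S : Set ℝ} {f : ℝ → V → ℝ} (h : Ub S f) :
    Pool.Agent.X96.AR.Bd S f ∧ Pool.Agent.X96.AR.B2 S f := by
  obtain ⟨C, hC⟩ := h
  exact ⟨⟨max C 0, le_max_right _ _, fun t ht => ⟨(hC t ht).1, fun x =>
      ((hC t ht).2.1 x).trans (le_max_left _ _)⟩⟩,
    ⟨max C 0, le_max_right _ _, fun t ht => ⟨⟨(hC t ht).1, (hC t ht).2.2.1⟩,
      (hC t ht).2.2.2.trans (le_max_left _ _)⟩⟩⟩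

lemma Hn.hb : ∀ {n : ℕ} {S : Set ℝ} {f : ℝ → V → ℝ}, Hn n S f → Pool.Agent.X96.AR.HB n S f
  | 0, _, _, h => Ub.hb h
  | _ + 1, _, _, h => ⟨Ub.hb h.1, fun j => Hn.hb (h.2 j)⟩

/-- Let `(u, p)` be a smooth axisymmetric solution of the Navier-Stokes equations with viscosity `1`
on `[0, T) × ℝ³` such that all spatial derivatives of `u`, and those of `p` of order at most one, are
bounded and square integrable, uniformly on compact subintervals of `(0, T)`; `Γ = circ (u t)` is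
the circulation. Let `0 < T₁ < T` and let `c_i(t)`, `i < k`, be the heights of finitely many points
of the axis, continuous on `[T₁, T)` and differentiable on `(T₁, T)`, let `r_i > 0`, let `l_i` be
real numbers with `∑ l_i⁻ < 1`, and let `a (1 - ∑ l_i⁻) > 3 (1 + ∑ |l_i|)²`, `α > 2`, `N ≥ 0`,
`0 < R < L`. Let `β`, `b ≥ 0` be continuous on `[T₁, T)` with `∫ β² ≤ B`, `∫ b ≤ B`. If
`ρ u_ρ + ∑ l_i (r_i² / (r_i² + R_i²)) (ρ² / R_i²) (1 + (x - c_i) · (u - c_i'))`
is at least `-2 + a / log (L / ρ) - β(t) ρ - b(t) ρ²` for `T₁ < t < T` at all points with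
`0 < ρ < R` at which `|Γ| > N (log (L / ρ)) ^ (-α)`, which are records of `|Γ|` with respect to the
weight `ρ² ∏ (R_i² / (r_i² + R_i²)) ^ l_i` and at which the gradient of `|Γ|` is a positive
multiple of the gradient of the weight, then `u` is bounded on `[0, T) × ℝ³`. -/
theorem result : ∀ (T : ℝ) (u : ℝ → V → V) (p : ℝ → V → ℝ), BSol 1 T u p →
    (∀ a b : ℝ, 0 < a → b < T → (∀ i n, Hn n (Icc a b) fun t x => u t x i) ∧
      Hn 1 (Icc a b) p) →
    ∀ (k : ℕ) (l r : Fin k → ℝ) (c : Fin k → ℝ → ℝ) (T₁ a α N L R B : ℝ) (β b : ℝ → ℝ),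
    0 < T₁ → T₁ < T → (∀ i, 0 < r i) → (∀ i, ContinuousOn (c i) (Ico T₁ T)) →
    (∀ i, ∀ t ∈ Ioo T₁ T, DifferentiableAt ℝ (c i) t) →
    ∑ i, max (-l i) 0 < 1 → 3 * (1 + ∑ i, |l i|) ^ 2 < a * (1 - ∑ i, max (-l i) 0) →
    2 < α → 0 ≤ N → 0 < R → R < L →
    ContinuousOn β (Ico T₁ T) → ContinuousOn b (Ico T₁ T) → (∀ t ∈ Ico T₁ T, 0 ≤ b t) →
    (∀ t ∈ Ico T₁ T, ∫ s in T₁..t, β s ^ 2 ≤ B) → (∀ t ∈ Ico T₁ T, ∫ s in T₁..t, b s ≤ B) →
    (∀ t ∈ Ioo T₁ T, ∀ x, 0 < sg x → sg x < R ^ 2 → Rw l r c N L α R T₁ u t x →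
      -2 + a / Real.log (L / √(sg x)) - β t * √(sg x) - b t * sg x
        ≤ Qw l r (fun i => c i t) (fun i => deriv (c i) t) (u t x) x) →
    ∃ U : ℝ, ∀ t ∈ Ico 0 T, ∀ x, ‖u t x‖ ≤ U := by
  intro T u p h hn k l r c T₁ a α N L R B β b hT₁ hT₁T hr hc hcd hσ ha hα hN hR hRL hβ hb hb0
    hB1 hB2 hcond
  have hRP : Pool.Agent.X96.AT.RP T u p :=
    ⟨⟨h, fun a b ha hb i n => ((hn a b ha hb).1 i n).hb⟩, fun a b ha hb => (hn a b ha hb).2.hb⟩
  obtain ⟨a₀, ha₀⟩ : ∃ a₀ : ℝ, a₀ = T₁ / 2 := ⟨_, rfl⟩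
  have ha0 : 0 < a₀ := by linarith
  have haT : a₀ < T := by linarith
  obtain ⟨E, hE, hrs, en, dis, -⟩ := Pool.Agent.X96.AT.frame hRP ha0 haT
  obtain ⟨M, -, hM⟩ := Pool.Agent.X96.AT.circ_cyl hrs hE (t₀ := T₁ - a₀) (by linarith)
    (by linarith) hR en dis
  have hts := Pool.Agent.X96.AT.RS.ts hrs (t₀ := T₁ - a₀) (by linarith)
  have e1 : T - a₀ - (T₁ - a₀) = T - T₁ := by ring
  have e2 : (fun t => u (a₀ + (T₁ - a₀ + t))) = fun t => u (T₁ + t) := by
    funext t
    congr 1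
    ring
  have e3 : (fun t => p (a₀ + (T₁ - a₀ + t))) = fun t => p (T₁ + t) := by
    funext t
    congr 1
    ring
  rw [e1] at hts
  have hts' : Pool.Agent.X96.AT.TS 1 (T - T₁) (fun t => u (T₁ + t)) (fun t => p (T₁ + t)) := by
    rw [← e2, ← e3]
    exact hts
  -- the exponent
  obtain ⟨Λ, hΛ⟩ : ∃ Λ : ℝ, Λ = ∑ i, |l i| := ⟨_, rfl⟩
  have hΛ0 : 0 ≤ Λ := by
    rw [hΛ]
    exact Finset.sum_nonneg fun i _ => abs_nonneg _
  obtain ⟨σ, hσe⟩ : ∃ σ : ℝ, σ = 1 - ∑ i, max (-l i) 0 := ⟨_, rfl⟩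
  rw [← hΛ, ← hσe] at ha
  have hΛ1 : 0 < (1 + Λ) ^ 2 := by positivity
  obtain ⟨z, hz⟩ : ∃ z : ℝ, z = a * σ / (1 + Λ) ^ 2 - 1 := ⟨_, rfl⟩
  have hz2 : 2 < z := by
    have : 3 < a * σ / (1 + Λ) ^ 2 := by rwa [lt_div_iff₀ hΛ1]
    rw [hz]
    linarith
  obtain ⟨α', hα'2, hα'α, hα'z⟩ : ∃ α' : ℝ, 2 < α' ∧ α' ≤ α ∧ α' < z := by
    refine ⟨(2 + min α z) / 2, ?_, ?_, ?_⟩
    · have : 2 < min α z := lt_min hα hz2
      linarith
    · have := min_le_left α z
      linarith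
    · have := min_le_right α z
      linarith
  have hα'a : (1 + α') * (1 + Λ) ^ 2 < a * σ := by
    have : 1 + α' < a * σ / (1 + Λ) ^ 2 := by linarith
    rwa [lt_div_iff₀ hΛ1] at this
  obtain ⟨A, hA0, hA⟩ := cylO hts' (by linarith) (l := l) hr (c := fun i t => c i (T₁ + t))
    (fun i => (hc i).comp (f := fun t => T₁ + t) (by fun_prop) fun t ht =>
      ⟨by linarith [ht.1], by linarith [ht.2]⟩)
    (fun i t ht => (hcd i (T₁ + t) ⟨by linarith [ht.1], by linarith [ht.2]⟩).comp t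
      (differentiableAt_id.const_add T₁))
    (R := R) (L := L) (a := a) (α := α') (α₀ := α) (N := N) (M := M) (D₁ := B) (D₂ := B) hR hRL
    (by linarith) hα'α hN hσ (by rw [← hΛ, ← hσe]; exact hα'a)
    (β := fun t => β (T₁ + t)) (b := fun t => b (T₁ + t))
    (hβ.comp (f := fun t => T₁ + t) (by fun_prop) fun t ht =>
      ⟨by linarith [ht.1], by linarith [ht.2]⟩)
    (hb.comp (f := fun t => T₁ + t) (by fun_prop) fun t ht =>
      ⟨by linarith [ht.1], by linarith [ht.2]⟩)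
    (fun t ht => hb0 (T₁ + t) ⟨by linarith [ht.1], by linarith [ht.2]⟩)
    (fun t ht => by
      rw [intervalIntegral.integral_comp_add_left (fun s => β s ^ 2) T₁, add_zero]
      exact hB1 (T₁ + t) ⟨by linarith [ht.1], by linarith [ht.2]⟩)
    (fun t ht => by
      rw [intervalIntegral.integral_comp_add_left (fun s => b s) T₁, add_zero]
      exact hB2 (T₁ + t) ⟨by linarith [ht.1], by linarith [ht.2]⟩)
    (fun t ht x hx => by
      have h1 := hM (T₁ - a₀ + t) ⟨by linarith [ht.1], by linarith [ht.2]⟩ x hx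
      have e : a₀ + (T₁ - a₀ + t) = T₁ + t := by ring
      rwa [e] at h1)
    (fun t ht x hx hxR hRw => by
      have h1 := hcond (T₁ + t) ⟨by linarith [ht.1], by linarith [ht.2]⟩ x hx hxR
        ⟨hRw.1, fun t' ht' y hy hyR hle => by
          have e : T₁ + (t' - T₁) = t' := by ring
          have h2 := hRw.2.1 (t' - T₁) ⟨by linarith [ht'.1], by linarith [ht'.2]⟩ y hy hyR
            (by simp only [e]; exact hle)
          simpa only [e] using h2, hRw.2.2⟩
      have e4 : (fun i => deriv (fun t => c i (T₁ + t)) t) = fun i => deriv (c i) (T₁ + t) := by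
        funext i
        exact deriv_comp_const_add (c i) T₁ t
      rw [e4]
      exact h1)
  refine Pool.Agent.X96.AT.regF hRP (T₁ := T₁) (a := 4) (α := α') (N := A) (L := L) (R := R)
    (B := 0) (β := fun _ => 0) hT₁.le hT₁T (by norm_num) hα'2 hA0 hR hRL continuousOn_const
    (fun _ _ => le_rfl) (fun s t _ _ _ => by simp) (fun t ht x hx hxR hlt _ => ?_)
  have h1 := hA (t - T₁) ⟨by linarith [ht.1], by linarith [ht.2]⟩ x hx hxR.le
  have e : T₁ + (t - T₁) = t := by ring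
  simp only [e] at h1
  exact absurd hlt (not_lt.2 h1)

end Pool.Agent.Results.MP_09540e_an.ObliqueInflow
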